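import Mathlib

/-!
# Project OC, module SS4: the numerical choice of the parameters
-/

set_option autoImplicit false

open Finset

namespace Pool.Agent.helper7.OC

theorem h52_exp135 : Real.exp 0.135 ≤ 100 / 87 := by
  have h := Real.exp_bound' (x := 0.135) (by norm_num) (by norm_num) (n := 3) (by norm_num)
  refine h.trans ?_
  norm_num [Finset.sum_range_succ, Nat.factorial]

theorem h52_87 (K : ℕ) : (87 / 100 : ℝ) ^ K ≤ Real.exp (-(0.135 * K)) := by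
  have h1 : (87 / 100 : ℝ) ≤ Real.exp (-0.135) := by
    have h2 := h52_exp135
    have h3 := Real.exp_pos 0.135
    rw [Real.exp_neg, le_inv_comm₀ (by norm_num) h3]
    refine h2.trans (by norm_num)
  calc (87 / 100 : ℝ) ^ K ≤ Real.exp (-0.135) ^ K := by gcongr
    _ = Real.exp (-(0.135 * K)) := by rw [← Real.exp_nat_mul]; ring_nf

theorem h52_87' (K : ℕ) (y : ℝ) (h : y ≤ 0.135 * K) : (87 / 100 : ℝ) ^ K ≤ Real.exp (-y) :=
  (h52_87 K).trans (Real.exp_le_exp.2 (by linarith))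

theorem h52_mu {y : ℝ} (h : 4 ≤ y) : ∃ μ : ℕ, 2 ≤ μ ∧ (2 : ℝ) ^ μ ≤ y ∧ y < 2 ^ (μ + 1) := by
  obtain ⟨μ, h1, h2⟩ := exists_nat_pow_near (x := y) (y := 2) (by linarith) (by norm_num)
  refine ⟨μ, ?_, h1, h2⟩
  by_contra h3
  have h4 : μ + 1 ≤ 2 := by omega
  have h5 : (2 : ℝ) ^ (μ + 1) ≤ 2 ^ 2 := pow_le_pow_right₀ (by norm_num) h4
  linarith

theorem h52_geom (n : ℕ) : ∑ i ∈ Ico 1 n, 1 / (2 : ℝ) ^ (i - 1) ≤ 2 := by
  rw [Finset.sum_Ico_eq_sum_range]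
  refine le_trans (le_of_eq ?_) (sum_geometric_two_le (n - 1))
  apply Finset.sum_congr rfl
  intro i _
  rw [Nat.add_sub_cancel_left, one_div_pow]

theorem h52_geom2 (m : ℕ) : ∑ i ∈ Ico 1 (m + 1), (2 : ℝ) ^ i ≤ 2 * 2 ^ m := by
  induction m with
  | zero => simp
  | succ m ih =>
    rw [Finset.sum_Ico_succ_top (by omega)]
    calc ∑ i ∈ Ico 1 (m + 1), (2 : ℝ) ^ i + 2 ^ (m + 1) ≤ 2 * 2 ^ m + 2 ^ (m + 1) := by linarith
      _ = 2 * 2 ^ (m + 1) := by ring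

/-- the setup of the parameters -/
structure H52P (x L : ℝ) (k a m : ℕ) (Kf : ℕ → ℕ) : Prop where
  x10 : 10 ≤ x
  k1 : 40000 * x ^ 2 * k ≤ L
  k3 : 1000 * x ^ 2 ≤ k
  a1 : 1600 * x ≤ a * Real.log 2
  a2 : (a : ℝ) ≤ 2400 * x
  a3 : 2308 * x ≤ a
  m1 : 12 * k ≤ a * 2 ^ m
  m2 : a * 2 ^ m ≤ 24 * k
  m3 : ∀ i < m, a * 2 ^ i < 12 * k
  n1 : (m + 1 : ℝ) ≤ 2 * x
  K1 : ∀ i, (k : ℝ) / 25 / 2 ^ (i - 1) + 40 * x ≤ Kf i
  K2 : ∀ i, (Kf i : ℝ) ≤ (k : ℝ) / 25 * (1 / 2 ^ (i - 1)) + 41 * x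

variable {x L : ℝ} {k a m : ℕ} {Kf : ℕ → ℕ}

theorem H52P.sumK (h : H52P x L k a m Kf) :
    ∑ i ∈ Ico 1 (m + 1), (Kf i : ℝ) ≤ 0.08 * k + 82 * x ^ 2 := by
  have hx := h.x10
  have hk := h.k3
  have hn := h.n1
  calc ∑ i ∈ Ico 1 (m + 1), (Kf i : ℝ)
      ≤ ∑ i ∈ Ico 1 (m + 1), ((k : ℝ) / 25 * (1 / 2 ^ (i - 1)) + 41 * x) :=
        Finset.sum_le_sum fun i _ => h.K2 i
    _ = (k : ℝ) / 25 * (∑ i ∈ Ico 1 (m + 1), 1 / (2 : ℝ) ^ (i - 1)) + m * (41 * x) := by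
        rw [Finset.sum_add_distrib, Finset.mul_sum, Finset.sum_const, Nat.card_Ico]
        simp
    _ ≤ (k : ℝ) / 25 * 2 + (2 * x) * (41 * x) := by
        gcongr
        · exact h52_geom _
        · linarith
    _ = 0.08 * k + 82 * x ^ 2 := by ring

/-- condition 10 -/
theorem H52P.c10 (h : H52P x L k a m Kf) (s CD : ℕ) (e3 : 2 * (s + CD : ℝ) ≤ x) :
    2 * (∑ i ∈ Ico 1 (m + 1), Kf i + s + CD) ≤ k := by
  have h1 := h.sumK
  have hx := h.x10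
  have hk := h.k3
  have h2 : (2 * (∑ i ∈ Ico 1 (m + 1), (Kf i : ℝ) + s + CD)) ≤ k := by
    nlinarith
  exact_mod_cast h2

theorem H52P.sumS (h : H52P x L k a m Kf) :
    a * k + ∑ i ∈ Ico 1 (m + 1), (a * 2 ^ i * Kf i : ℝ) ≤ (384 * x ^ 2 + 4368 * x) * k := by
  have hx := h.x10
  have hk := h.k3
  have hn := h.n1
  have ha := h.a2
  have hm2 : (a * 2 ^ m : ℝ) ≤ 24 * k := by exact_mod_cast h.m2
  have h1 : ∀ i ∈ Ico 1 (m + 1), (a * 2 ^ i * Kf i : ℝ) ≤ a * (0.08 * k) + 41 * x * a * 2 ^ i := by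
    intro i hi
    rw [Finset.mem_Ico] at hi
    have h2 := h.K2 i
    have h3 : (2 : ℝ) ^ i = 2 * 2 ^ (i - 1) := by
      rw [← pow_succ']
      congr 1
      omega
    calc (a * 2 ^ i * Kf i : ℝ) ≤ a * 2 ^ i * ((k : ℝ) / 25 * (1 / 2 ^ (i - 1)) + 41 * x) := by gcongr
      _ = a * (0.08 * k) * (2 ^ (i - 1) / 2 ^ (i - 1)) + 41 * x * a * 2 ^ i := by
          rw [h3]
          ring
      _ = a * (0.08 * k) + 41 * x * a * 2 ^ i := by
          rw [div_self (by positivity), mul_one]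
  have h2 : ∑ i ∈ Ico 1 (m + 1), (a * 2 ^ i * Kf i : ℝ) ≤
      m * (a * (0.08 * k)) + 41 * x * a * (2 * 2 ^ m) := by
    refine (Finset.sum_le_sum h1).trans ?_
    rw [Finset.sum_add_distrib, Finset.sum_const, Nat.card_Ico, Nat.add_sub_cancel, nsmul_eq_mul,
      ← Finset.mul_sum]
    have h3 := h52_geom2 m
    gcongr
  have h3 : m * (a * (0.08 * k)) ≤ (2 * x) * ((2400 * x) * (0.08 * k)) := by
    gcongr
    linarith
  have h4 : 41 * x * a * (2 * 2 ^ m) ≤ 82 * x * (24 * k) := by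
    calc 41 * x * a * (2 * 2 ^ m) = 82 * x * (a * 2 ^ m) := by ring
      _ ≤ 82 * x * (24 * k) := by gcongr
  have h5 : (a * k : ℝ) ≤ 2400 * x * k := by gcongr
  nlinarith

/-- condition 11 -/
theorem H52P.c11 (h : H52P x L k a m Kf) (C₃ CD X : ℕ) (hX : (X : ℝ) = Real.exp L)
    (e2 : (C₃ * CD : ℝ) ≤ x) :
    ((C₃ * (8 ^ k) ^ C₃) ^ CD * 2 ^ (2 * (a * k + ∑ i ∈ Ico 1 (m + 1), a * 2 ^ i * Kf i))) ^ 8
      ≤ X := by
  have hx := h.x10
  have hk := h.k3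
  have hk1 := h.k1
  have hS := h.sumS
  set S := a * k + ∑ i ∈ Ico 1 (m + 1), a * 2 ^ i * Kf i with hSdef
  have hS' : (S : ℝ) ≤ (384 * x ^ 2 + 4368 * x) * k := by
    rw [hSdef]
    push_cast
    exact hS
  have h1 : ((C₃ * (8 ^ k) ^ C₃) ^ CD * 2 ^ (2 * S)) ^ 8 ≤
      2 ^ (8 * ((C₃ + 3 * k * C₃) * CD + 2 * S)) := by
    have h2 : C₃ ≤ 2 ^ C₃ := Nat.lt_two_pow_self.le
    calc ((C₃ * (8 ^ k) ^ C₃) ^ CD * 2 ^ (2 * S)) ^ 8
        ≤ ((2 ^ C₃ * (8 ^ k) ^ C₃) ^ CD * 2 ^ (2 * S)) ^ 8 := by gcongr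
      _ = 2 ^ (8 * ((C₃ + 3 * k * C₃) * CD + 2 * S)) := by
          rw [show (8 : ℕ) = 2 ^ 3 by norm_num]
          simp only [← pow_mul, ← pow_add]
          congr 1
          ring
  have h3 : ((2 ^ (8 * ((C₃ + 3 * k * C₃) * CD + 2 * S)) : ℕ) : ℝ) ≤ X := by
    rw [hX]
    push_cast
    rw [← Real.rpow_natCast, Real.rpow_def_of_pos (by norm_num), Real.exp_le_exp]
    push_cast
    have h4 : Real.log 2 ≤ 0.7 := by
      have := Real.log_two_lt_d9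
      linarith
    have h5 : 8 * ((C₃ + 3 * k * C₃ : ℝ) * CD + 2 * S) ≤ 13200 * x ^ 2 * k := by
      have hk1' : (1 : ℝ) ≤ k := by nlinarith
      have e1 : (C₃ + 3 * k * C₃ : ℝ) * CD ≤ 4 * k * (C₃ * CD) := by
        have : (C₃ : ℝ) * CD ≤ k * (C₃ * CD) := by
          have h0 : (0 : ℝ) ≤ C₃ * CD := by positivity
          nlinarith
        nlinarith
      have e2' : 4 * k * (C₃ * CD : ℝ) ≤ 4 * k * x := by gcongr
      have e3 : (x : ℝ) * k ≤ x ^ 2 / 10 * k := by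
        have : x ≤ x ^ 2 / 10 := by nlinarith
        gcongr
      nlinarith
    calc Real.log 2 * (8 * ((C₃ + 3 * k * C₃ : ℝ) * CD + 2 * S))
        ≤ 0.7 * (13200 * x ^ 2 * k) := by gcongr
      _ ≤ 40000 * x ^ 2 * k := by
          have : 0 ≤ x ^ 2 * k := by positivity
          nlinarith
      _ ≤ L := hk1
  exact_mod_cast ((Nat.cast_le (α := ℝ)).2 h1).trans h3

theorem h52_eps {N₀ : ℕ} {ε x : ℝ} (hε : 0 < ε) (e4 : 800 * (N₀ + 1) / ε ≤ x) :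
    (N₀ + 1) * Real.exp (-x) ≤ ε / 800 := by
  have h1 : x + 1 ≤ Real.exp x := Real.add_one_le_exp x
  have h2 := Real.exp_pos x
  rw [Real.exp_neg, ← div_eq_mul_inv, div_le_div_iff₀ h2 (by norm_num)]
  rw [div_le_iff₀ hε] at e4
  nlinarith

theorem h52_rpow (k : ℕ) (y : ℝ) :
    ((8 : ℝ) ^ k) ^ y = Real.exp (3 * y * Real.log 2 * k) := by
  rw [Real.rpow_def_of_pos (by positivity), Real.log_pow, show (8 : ℝ) = 2 ^ 3 by norm_num,
    Real.log_pow]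
  congr 1
  push_cast
  ring

/-- condition 12 -/
theorem H52P.c12 (h : H52P x L k a m Kf) (hL : L = Real.exp x) (C₄ ε : ℝ) (N₀ : ℕ) (hC₄ : 1 ≤ C₄)
    (hε : 0 < ε) (e4 : 800 * (N₀ + 1) / ε ≤ x) (e5 : C₄ ≤ x) (K₀ : ℕ) (hK : k ≤ 2 * K₀) :
    L ^ 10 * ((8 : ℝ) ^ k) ^ (14 / 1600 : ℝ) * (87 / 100 : ℝ) ^ K₀
        + ∑ i ∈ Ico 1 (m + 1), 10 * (C₄ * (k : ℝ) ^ 2) ^ (6 * k / (a * 2 ^ (i - 1)) + 1)
            * (87 / 100 : ℝ) ^ (Kf i) ≤ ε := by
  have hx := h.x10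
  have hk := h.k3
  have hk1 := h.k1
  have hn := h.n1
  have l1 := Real.log_two_lt_d9
  have l2 := Real.log_two_gt_d9
  have hK' : (k : ℝ) ≤ 2 * K₀ := by exact_mod_cast hK
  have hk0 : (0 : ℝ) ≤ k := Nat.cast_nonneg k
  have hε1 : Real.exp (-x) ≤ ε / 800 := by
    have h1 := h52_eps hε e4
    have h2 := Real.exp_pos (-x)
    have h3 : (0 : ℝ) ≤ N₀ := Nat.cast_nonneg _
    nlinarith
  have hkx : 10000 * x ≤ k := by nlinarith
  have T1 : L ^ 10 * ((8 : ℝ) ^ k) ^ (14 / 1600 : ℝ) * (87 / 100 : ℝ) ^ K₀ ≤ Real.exp (-x) := by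
    have h1 : L ^ 10 = Real.exp (10 * x) := by
      rw [hL, ← Real.exp_nat_mul]
      norm_num
    have h2 : ((8 : ℝ) ^ k) ^ (14 / 1600 : ℝ) ≤ Real.exp (0.0183 * k) := by
      rw [h52_rpow, Real.exp_le_exp]
      nlinarith
    have h3 := h52_87' K₀ (0.0675 * k) (by linarith)
    calc L ^ 10 * ((8 : ℝ) ^ k) ^ (14 / 1600 : ℝ) * (87 / 100 : ℝ) ^ K₀
        ≤ Real.exp (10 * x) * Real.exp (0.0183 * k) * Real.exp (-(0.0675 * k)) := by
          rw [h1]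
          gcongr
      _ = Real.exp (10 * x + 0.0183 * k + -(0.0675 * k)) := by rw [Real.exp_add, Real.exp_add]
      _ ≤ Real.exp (-x) := by
          rw [Real.exp_le_exp]
          linarith
  have hCk : C₄ * (k : ℝ) ^ 2 ≤ Real.exp (2 * x) := by
    have h1 : Real.exp (2 * x) = L ^ 2 := by
      rw [hL, ← Real.exp_nat_mul]
      norm_num
    rw [h1]
    have h2 : (x * k) ^ 2 ≤ L ^ 2 := by
      apply pow_le_pow_left₀ (by positivity)
      have h3 : x * k ≤ 40000 * x ^ 2 * k := by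
        have : x ≤ 40000 * x ^ 2 := by nlinarith
        gcongr
      linarith
    calc C₄ * (k : ℝ) ^ 2 ≤ x ^ 2 * (k : ℝ) ^ 2 := by
          have : C₄ ≤ x ^ 2 := by nlinarith
          gcongr
      _ = (x * k) ^ 2 := by ring
      _ ≤ L ^ 2 := h2
  have T2 : ∀ i ∈ Ico 1 (m + 1), 10 * (C₄ * (k : ℝ) ^ 2) ^ (6 * k / (a * 2 ^ (i - 1)) + 1)
            * (87 / 100 : ℝ) ^ (Kf i) ≤ 10 * Real.exp (-(3 * x)) := by
    intro i _
    set y : ℝ := (k : ℝ) / 2 ^ (i - 1) with hy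
    have hy0 : 0 ≤ y := by positivity
    have h1 : ((6 * k / (a * 2 ^ (i - 1)) : ℕ) : ℝ) ≤ 6 / (2308 * x) * y := by
      refine Nat.cast_div_le.trans ?_
      push_cast
      have h3 := h.a3
      have h4 : 6 / (2308 * x) * y = 6 * k / ((2308 * x) * 2 ^ (i - 1)) := by
        rw [hy]
        field_simp
      rw [h4]
      gcongr
    have h2 : (C₄ * (k : ℝ) ^ 2) ^ (6 * k / (a * 2 ^ (i - 1)) + 1) ≤
        Real.exp (2 * x + 12 / 2308 * y) := by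
      calc (C₄ * (k : ℝ) ^ 2) ^ (6 * k / (a * 2 ^ (i - 1)) + 1)
          ≤ Real.exp (2 * x) ^ (6 * k / (a * 2 ^ (i - 1)) + 1) := by gcongr
        _ = Real.exp (((6 * k / (a * 2 ^ (i - 1)) : ℕ) + 1 : ℝ) * (2 * x)) := by
            rw [← Real.exp_nat_mul]
            push_cast
            rfl
        _ ≤ Real.exp (2 * x + 12 / 2308 * y) := by
            rw [Real.exp_le_exp]
            calc ((6 * k / (a * 2 ^ (i - 1)) : ℕ) + 1 : ℝ) * (2 * x)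
                ≤ (6 / (2308 * x) * y + 1) * (2 * x) := by gcongr
              _ = 2 * x + 12 / 2308 * y := by
                  field_simp
                  ring
    have h3 := h52_87' (Kf i) (0.0054 * y + 5.4 * x) (by
      have := h.K1 i
      have e : (k : ℝ) / 25 / 2 ^ (i - 1) = 0.04 * y := by
        rw [hy]
        ring
      rw [e] at this
      linarith)
    calc 10 * (C₄ * (k : ℝ) ^ 2) ^ (6 * k / (a * 2 ^ (i - 1)) + 1) * (87 / 100 : ℝ) ^ (Kf i)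
        ≤ 10 * Real.exp (2 * x + 12 / 2308 * y) * Real.exp (-(0.0054 * y + 5.4 * x)) := by gcongr
      _ = 10 * Real.exp (2 * x + 12 / 2308 * y + -(0.0054 * y + 5.4 * x)) := by
          rw [mul_assoc, ← Real.exp_add]
      _ ≤ 10 * Real.exp (-(3 * x)) := by
          gcongr
          have : 12 / 2308 * y ≤ 0.0054 * y := by nlinarith
          linarith
  have T3 := Finset.sum_le_sum T2
  rw [Finset.sum_const, Nat.card_Ico, Nat.add_sub_cancel, nsmul_eq_mul] at T3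
  have T4 : m * (10 * Real.exp (-(3 * x))) ≤ 20 * Real.exp (-x) := by
    have h1 : (m : ℝ) ≤ 2 * Real.exp x := by
      have := Real.add_one_le_exp x
      linarith
    have h2 : Real.exp (-(3 * x)) = Real.exp (-x) * Real.exp (-x) * Real.exp (-x) := by
      rw [← Real.exp_add, ← Real.exp_add]
      ring_nf
    have h3 : Real.exp x * Real.exp (-x) = 1 := by
      rw [← Real.exp_add]
      simp
    have h4 : Real.exp (-x) ≤ 1 := Real.exp_le_one_iff.2 (by linarith)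
    have h5 := Real.exp_pos (-x)
    calc (m : ℝ) * (10 * Real.exp (-(3 * x))) ≤ (2 * Real.exp x) * (10 * Real.exp (-(3 * x))) := by
          gcongr
      _ = 20 * (Real.exp x * Real.exp (-x)) * Real.exp (-x) * Real.exp (-x) := by
          rw [h2]
          ring
      _ = 20 * Real.exp (-x) * Real.exp (-x) := by
          rw [h3]
          ring
      _ ≤ 20 * Real.exp (-x) * 1 := by gcongr
      _ = 20 * Real.exp (-x) := by ring
  linarith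

/-- condition 13 -/
theorem H52P.c13 (h : H52P x L k a m Kf) (hL : L = Real.exp x) (ε : ℝ) (N₀ X : ℕ)
    (hX : (X : ℝ) = Real.exp L) (hε : 0 < ε) (e4 : 800 * (N₀ + 1) / ε ≤ x) :
    (N₀ + 1 + √(24 * X) * (8 * L ^ 10 * ((8 : ℝ) ^ k) ^ (14 / 1600 - 1 / 2 : ℝ)))
        * (2 ^ k * (2 * (5 * √X))) ≤ ε * (X / L) := by
  have hx := h.x10
  have hk := h.k3
  have hk1 := h.k1
  have l1 := Real.log_two_lt_d9
  have l2 := Real.log_two_gt_d9
  have hk0 : (0 : ℝ) ≤ k := Nat.cast_nonneg k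
  have hN : (0 : ℝ) ≤ N₀ := Nat.cast_nonneg _
  have hε2 := h52_eps hε e4
  have hε1 : Real.exp (-x) ≤ ε / 800 := by
    have h2 := Real.exp_pos (-x)
    nlinarith
  have hkx : 10000 * x ≤ k := by nlinarith
  have hkL : 1000 * k ≤ L := by
    have : (1000 : ℝ) * k ≤ 40000 * x ^ 2 * k := by
      have : (1000 : ℝ) ≤ 40000 * x ^ 2 := by nlinarith
      gcongr
    linarith
  have h24 : √(24 * (X : ℝ)) ≤ 5 * √(X : ℝ) := by
    rw [Real.sqrt_le_left (by positivity), mul_pow, Real.sq_sqrt (Nat.cast_nonneg _)]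
    have : (0 : ℝ) ≤ X := Nat.cast_nonneg _
    linarith
  have hw : √(X : ℝ) = Real.exp (L / 2) := by rw [hX, Real.exp_half]
  have hL10 : L ^ 10 = Real.exp (10 * x) := by
    rw [hL, ← Real.exp_nat_mul]
    norm_num
  have h2k : (2 : ℝ) ^ k = Real.exp (Real.log 2 * k) := by
    rw [← Real.rpow_natCast, Real.rpow_def_of_pos (by norm_num)]
  have hE : ((8 : ℝ) ^ k) ^ (14 / 1600 - 1 / 2 : ℝ) * 2 ^ k ≤ Real.exp (-(0.3 * k)) := by
    rw [h52_rpow, h2k, ← Real.exp_add, Real.exp_le_exp]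
    nlinarith
  have hR : ε * (X / L) = ε * (Real.exp L * Real.exp (-x)) := by
    rw [hX, Real.exp_neg, ← hL, div_eq_mul_inv]
  have hf : (N₀ + 1) * (2 ^ k * (2 * (5 * √(X : ℝ)))) ≤ ε / 80 * (Real.exp L * Real.exp (-x)) := by
    calc (N₀ + 1) * (2 ^ k * (2 * (5 * √(X : ℝ))))
        = 10 * (N₀ + 1) * Real.exp (Real.log 2 * k + L / 2) := by
          rw [hw, h2k, Real.exp_add]
          ring
      _ ≤ 10 * (N₀ + 1) * Real.exp (L + -x + -x) := by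
          refine mul_le_mul_of_nonneg_left (Real.exp_le_exp.2 ?_) (by positivity)
          nlinarith
      _ = 10 * ((N₀ + 1) * Real.exp (-x)) * (Real.exp L * Real.exp (-x)) := by
          rw [Real.exp_add, Real.exp_add]
          ring
      _ ≤ 10 * (ε / 800) * (Real.exp L * Real.exp (-x)) := by gcongr
      _ = ε / 80 * (Real.exp L * Real.exp (-x)) := by ring
  have hs : √(24 * (X : ℝ)) * (8 * L ^ 10 * ((8 : ℝ) ^ k) ^ (14 / 1600 - 1 / 2 : ℝ)) *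
      (2 ^ k * (2 * (5 * √(X : ℝ)))) ≤ ε / 2 * (Real.exp L * Real.exp (-x)) := by
    calc √(24 * (X : ℝ)) * (8 * L ^ 10 * ((8 : ℝ) ^ k) ^ (14 / 1600 - 1 / 2 : ℝ)) *
      (2 ^ k * (2 * (5 * √(X : ℝ))))
        = 80 * √(24 * (X : ℝ)) * √(X : ℝ) * L ^ 10 *
            (((8 : ℝ) ^ k) ^ (14 / 1600 - 1 / 2 : ℝ) * 2 ^ k) := by ring
      _ ≤ 80 * (5 * √(X : ℝ)) * √(X : ℝ) * Real.exp (10 * x) * Real.exp (-(0.3 * k)) := by
          rw [hL10]
          gcongr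
      _ = 400 * (√(X : ℝ) * √(X : ℝ)) * Real.exp (10 * x + -(0.3 * k)) := by
          rw [Real.exp_add]
          ring
      _ ≤ 400 * (√(X : ℝ) * √(X : ℝ)) * Real.exp (-x + -x) := by
          refine mul_le_mul_of_nonneg_left (Real.exp_le_exp.2 ?_) (by positivity)
          linarith
      _ = 400 * Real.exp (-x) * (Real.exp L * Real.exp (-x)) := by
          rw [Real.mul_self_sqrt (Nat.cast_nonneg _), hX, Real.exp_add]
          ring
      _ ≤ 400 * (ε / 800) * (Real.exp L * Real.exp (-x)) := by gcongr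
      _ = ε / 2 * (Real.exp L * Real.exp (-x)) := by ring
  rw [hR, add_mul]
  have hp : 0 < ε * (Real.exp L * Real.exp (-x)) := by positivity
  linarith

/-- existence of the parameters -/
theorem h52_params (x L : ℝ) (hL : L = Real.exp x) (x10 : 10 ≤ x) (e7 : 80000000 * x ^ 4 ≤ L) :
    ∃ (μ a m : ℕ) (Kf : ℕ → ℕ), 2 ≤ μ ∧ L / (40000 * x ^ 2) ≤ 2 ^ μ ∧ (2 : ℝ) ^ μ ≤ L ∧
      H52P x L (2 ^ (μ - 1)) a m Kf := by
  have l1 := Real.log_two_lt_d9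
  have l2 := Real.log_two_gt_d9
  have hx2 : 100 ≤ x ^ 2 := by nlinarith
  obtain ⟨μ, h2, h3, h4⟩ := h52_mu (y := L / (20000 * x ^ 2)) (by
    rw [le_div_iff₀ (by positivity)]
    nlinarith)
  rw [le_div_iff₀ (by positivity)] at h3
  rw [div_lt_iff₀ (by positivity)] at h4
  set k := 2 ^ (μ - 1) with hk
  have hk' : (2 : ℝ) ^ μ = 2 * k := by
    rw [hk]
    push_cast
    rw [← pow_succ']
    congr 1
    omega
  have k1 : 40000 * x ^ 2 * k ≤ L := by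
    rw [hk'] at h3
    linarith
  have k3 : 1000 * x ^ 2 ≤ k := by
    rw [pow_succ, hk'] at h4
    have h5 : 80000000 * x ^ 4 < 80000 * x ^ 2 * k := by linarith
    have h6 : 80000 * x ^ 2 * (1000 * x ^ 2) < 80000 * x ^ 2 * k := by
      calc 80000 * x ^ 2 * (1000 * x ^ 2) = 80000000 * x ^ 4 := by ring
        _ < _ := h5
    exact (lt_of_mul_lt_mul_left h6 (by positivity)).le
  obtain ⟨a, ha⟩ : ∃ a, a = ⌈1600 * x / Real.log 2⌉₊ := ⟨_, rfl⟩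
  have hlog : 0 < Real.log 2 := by linarith
  have a0 : 1600 * x / Real.log 2 ≤ a := by
    rw [ha]
    exact Nat.le_ceil _
  have a1 : 1600 * x ≤ a * Real.log 2 := by
    rwa [div_le_iff₀ hlog] at a0
  have a2 : (a : ℝ) ≤ 2400 * x := by
    have h5 : (a : ℝ) < 1600 * x / Real.log 2 + 1 := by
      rw [ha]
      exact Nat.ceil_lt_add_one (by positivity)
    have h6 : 1600 * x / Real.log 2 ≤ 2399 * x := by
      rw [div_le_iff₀ hlog]
      nlinarith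
    linarith
  have a3 : 2308 * x ≤ a := by
    by_contra h5
    push Not at h5
    have h6 : (a : ℝ) * Real.log 2 ≤ 2308 * x * Real.log 2 := by gcongr
    nlinarith
  have apos : 0 < a := by
    have : (0 : ℝ) < a := by nlinarith
    exact_mod_cast this
  have hex : ∃ m, 12 * k ≤ a * 2 ^ m := by
    refine ⟨12 * k, ?_⟩
    calc 12 * k ≤ 2 ^ (12 * k) := Nat.lt_two_pow_self.le
      _ ≤ a * 2 ^ (12 * k) := Nat.le_mul_of_pos_left _ apos
  obtain ⟨m, hm⟩ : ∃ m, m = Nat.find hex := ⟨_, rfl⟩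
  have m1 : 12 * k ≤ a * 2 ^ m := by
    rw [hm]
    exact Nat.find_spec hex
  have m3 : ∀ i < m, a * 2 ^ i < 12 * k := by
    intro i hi
    rw [hm] at hi
    have := Nat.find_min hex hi
    omega
  have m2 : a * 2 ^ m ≤ 24 * k := by
    rcases Nat.eq_zero_or_pos m with h0 | h0
    · rw [h0, pow_zero, mul_one]
      have : (a : ℝ) ≤ 24 * k := by nlinarith
      exact_mod_cast this
    · have h5 := m3 (m - 1) (by omega)
      have h6 : 2 ^ m = 2 * 2 ^ (m - 1) := by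
        rw [← pow_succ']
        congr 1
        omega
      rw [h6]
      calc a * (2 * 2 ^ (m - 1)) = 2 * (a * 2 ^ (m - 1)) := by ring
        _ ≤ 24 * k := by omega
  have n1 : (m + 1 : ℝ) ≤ 2 * x := by
    have h5 : (2 : ℝ) ^ m ≤ L := by
      have h6 : (a : ℝ) * 2 ^ m ≤ 24 * k := by exact_mod_cast m2
      have h7 : (1 : ℝ) * 2 ^ m ≤ a * 2 ^ m := by
        gcongr
        exact_mod_cast apos
      have h8 : (24 : ℝ) * k ≤ 40000 * x ^ 2 * k := by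
        have : (24 : ℝ) ≤ 40000 * x ^ 2 := by linarith
        gcongr
      linarith
    rw [← Real.rpow_natCast, Real.rpow_def_of_pos (by norm_num), hL, Real.exp_le_exp] at h5
    have hm0 : (0 : ℝ) ≤ m := Nat.cast_nonneg m
    nlinarith
  refine ⟨μ, a, m, fun i => ⌈(k : ℝ) / 25 / 2 ^ (i - 1) + 40 * x⌉₊, h2, ?_, ?_, x10, k1, k3, a1, a2,
    a3, m1, m2, m3, n1, fun i => Nat.le_ceil _, ?_⟩
  · rw [div_le_iff₀ (by positivity)]
    rw [pow_succ] at h4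
    linarith
  · have h5 : (2 : ℝ) ^ μ * 1 ≤ 2 ^ μ * (20000 * x ^ 2) := by
      gcongr
      linarith
    linarith
  · intro i
    have h5 := Nat.ceil_lt_add_one (a := (k : ℝ) / 25 / 2 ^ (i - 1) + 40 * x) (by positivity)
    have h6 : (k : ℝ) / 25 / 2 ^ (i - 1) = (k : ℝ) / 25 * (1 / 2 ^ (i - 1)) := by ring
    rw [h6] at h5 ⊢
    linarith

theorem num_choice (CD C₃ s N₀ : ℕ) (C₄ ε : ℝ) (hC₄ : 1 ≤ C₄) (hε : 0 < ε) : ∃ c₀ : ℝ, 0 < c₀ ∧
    ∃ X₀ : ℕ, ∀ X : ℕ, X₀ ≤ X → ∃ (a n μ : ℕ) (Kf : ℕ → ℕ),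
      2 ≤ μ ∧ c₀ * Real.log X / (Real.log (Real.log X)) ^ 2 ≤ 2 ^ μ ∧ (2 : ℝ) ^ μ ≤ Real.log X ∧
      (Real.log X) ^ (1600 : ℝ) ≤ 2 ^ a ∧ (a : ℝ) ≤ 2400 * Real.log (Real.log X) ∧
      1 ≤ n ∧ (n : ℝ) ≤ Real.log X ∧ 12 * 2 ^ (μ - 1) ≤ a * 2 ^ (n - 1) ∧
      (∀ i, i + 1 < n → a * 2 ^ i ≤ 12 * 2 ^ (μ - 1)) ∧
      2 * (∑ i ∈ Ico 1 n, Kf i + s + CD) ≤ 2 ^ (μ - 1) ∧
      ((C₃ * (8 ^ 2 ^ (μ - 1)) ^ C₃) ^ CD *
        2 ^ (2 * (a * 2 ^ (μ - 1) + ∑ i ∈ Ico 1 n, a * 2 ^ i * Kf i))) ^ 8 ≤ X ∧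
      (∀ K₀ : ℕ, 2 ^ (μ - 1) ≤ 2 * K₀ →
        (Real.log X) ^ 10 * ((8 : ℝ) ^ 2 ^ (μ - 1)) ^ (14 / 1600 : ℝ) * (87 / 100 : ℝ) ^ K₀
        + ∑ i ∈ Ico 1 n, 10 * (C₄ * (2 ^ (μ - 1)) ^ 2) ^ (6 * 2 ^ (μ - 1) / (a * 2 ^ (i - 1)) + 1)
            * (87 / 100 : ℝ) ^ (Kf i) ≤ ε) ∧
      (N₀ + 1 + √(24 * X) * (8 * (Real.log X) ^ 10 * ((8 : ℝ) ^ 2 ^ (μ - 1)) ^ (14 / 1600 - 1 / 2 : ℝ)))
        * (2 ^ 2 ^ (μ - 1) * (2 * (5 * √X))) ≤ ε * (X / Real.log X) := by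
  refine ⟨1 / 40000, by norm_num, ?_⟩
  have hx : Filter.Tendsto (fun X : ℕ => Real.log (Real.log X)) Filter.atTop Filter.atTop :=
    Real.tendsto_log_atTop.comp (Real.tendsto_log_atTop.comp tendsto_natCast_atTop_atTop)
  have h7 : ∀ᶠ x : ℝ in Filter.atTop, 80000000 * x ^ 4 ≤ Real.exp x := by
    have h := (Real.tendsto_exp_div_pow_atTop 4).eventually_ge_atTop 80000000
    filter_upwards [h, Filter.eventually_gt_atTop 0] with x hx hx0
    rwa [le_div_iff₀ (by positivity)] at hx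
  have h8 := hx.eventually (h7.and ((Filter.eventually_ge_atTop 10).and
    ((Filter.eventually_ge_atTop (C₃ * CD : ℝ)).and
    ((Filter.eventually_ge_atTop (2 * (s + CD) : ℝ)).and
    ((Filter.eventually_ge_atTop (800 * (N₀ + 1) / ε : ℝ)).and
    (Filter.eventually_ge_atTop C₄))))))
  obtain ⟨X₀, hX₀⟩ := Filter.eventually_atTop.1 (h8.and (Filter.eventually_ge_atTop 3))
  refine ⟨X₀, fun X hX => ?_⟩
  obtain ⟨⟨e7, e1, e2, e3, e4, e5⟩, hX3⟩ := hX₀ X hX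
  have hX3' : (3 : ℝ) ≤ X := by exact_mod_cast hX3
  obtain ⟨L, hLdef⟩ : ∃ L, L = Real.log X := ⟨_, rfl⟩
  rw [← hLdef] at e7 e1 e2 e3 e4 e5 ⊢
  obtain ⟨x, hxdef⟩ : ∃ x, x = Real.log L := ⟨_, rfl⟩
  rw [← hxdef] at e7 e1 e2 e3 e4 e5 ⊢
  have hL0 : 0 < L := by
    rw [hLdef]
    exact Real.log_pos (by linarith)
  have hL : L = Real.exp x := by rw [hxdef, Real.exp_log hL0]
  have hXL : (X : ℝ) = Real.exp L := by rw [hLdef, Real.exp_log (by linarith)]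
  rw [← hL] at e7
  obtain ⟨μ, a, m, Kf, h2, h3, h4, H⟩ := h52_params x L hL e1 e7
  refine ⟨a, m + 1, μ, Kf, h2, ?_, h4, ?_, H.a2, by omega, ?_, H.m1, ?_, ?_, ?_, ?_, ?_⟩
  · refine le_trans (le_of_eq ?_) h3
    field_simp
  · rw [← Real.rpow_natCast 2 a, Real.rpow_def_of_pos hL0, Real.rpow_def_of_pos (by norm_num),
      ← hxdef, Real.exp_le_exp]
    have := H.a1
    linarith
  · have h5 := H.n1
    push_cast
    have h6 : 2 * x ≤ L := by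
      have h7 := Real.quadratic_le_exp_of_nonneg (x := x) (by linarith)
      rw [← hL] at h7
      nlinarith
    linarith
  · intro i hi
    exact (H.m3 i (by omega)).le
  · exact H.c10 s CD e3
  · exact H.c11 C₃ CD X hXL e2
  · intro K₀ hK
    have h5 := H.c12 hL C₄ ε N₀ hC₄ hε e4 e5 K₀ hK
    push_cast at h5
    exact h5
  · have h5 := H.c13 hL ε N₀ X hXL hε e4
    exact h5

end Pool.Agent.helper7.OC
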