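import Mathlib

/-!
# Project oc: (MP_afa6c5_al), block A: ordered groups and the abstract package

`QCone N P`: `P` is the (pulled back) strictly positive cone of a bi-invariant total order of `G ⧸ N`; `OQ N`: `N` is normal and
`G ⧸ N` is linearly orderable. `Ordb G`: `G` is linearly orderable. `Target n`: the statement of the theorem.
-/

set_option autoImplicit false

namespace OC

/-- `a^g`. -/
def cj {G : Type} [Group G] (a g : G) : G := g⁻¹ * a * g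

/-- the strictly positive cone of a bi-invariant total order on `G ⧸ N`, pulled back to `G`. -/
structure QCone {G : Type} [Group G] (N : Subgroup G) (P : Set G) : Prop where
  dis : ∀ a ∈ P, a ∉ N
  mul : ∀ a ∈ P, ∀ b ∈ P, a * b ∈ P
  conj : ∀ a ∈ P, ∀ g : G, g⁻¹ * a * g ∈ P
  tri : ∀ a : G, a ∉ N → a ∈ P ∨ a⁻¹ ∈ P

/-- `N` is normal and `G ⧸ N` is linearly orderable. -/
def OQ {G : Type} [Group G] (N : Subgroup G) : Prop := N.Normal ∧ ∃ P : Set G, QCone N P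

/-- `G` is linearly orderable. -/
def Ordb (G : Type) [Group G] : Prop := ∃ P : Set G, QCone (⊥ : Subgroup G) P

/-- `H` is convex for the order with positive cone `P`. -/
def Cvx {G : Type} [Group G] (P : Set G) (H : Subgroup G) : Prop := ∀ a ∈ P, ∀ b ∈ P, a * b ∈ H → a ∈ H

/-- a bi-invariant total order. -/
def BiOrder {G : Type} [Group G] (r : G → G → Prop) : Prop :=
  (∀ a, r a a) ∧ (∀ a b, r a b → r b a → a = b) ∧ (∀ a b c, r a b → r b c → r a c) ∧ (∀ a b, r a b ∨ r b a) ∧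
  (∀ a b c, r a b → r (c * a) (c * b) ∧ r (a * c) (b * c))

/-- linearly orderable group. -/
def Orderable (G : Type) [Group G] : Prop := ∃ r : G → G → Prop, BiOrder r

/-- relatively convex subgroup: convex for at least one bi-invariant total order. -/
def RelConvex {G : Type} [Group G] (H : Subgroup G) : Prop :=
  ∃ r : G → G → Prop, BiOrder r ∧ ∀ h₁ ∈ H, ∀ h₂ ∈ H, ∀ g : G, r h₁ g → r g h₂ → g ∈ H

/-- the statement for the derived length `n` (with a finitely generated group). -/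
def Target (n : ℕ) : Prop := ∃ (G : Type) (_ : Group G), Group.FG G ∧ Orderable G ∧ derivedSeries G n = ⊥ ∧
  derivedSeries G (n - 1) ≠ ⊥ ∧ ∃! H : Subgroup G, H.Normal ∧ RelConvex H ∧ H ≠ ⊥ ∧ H ≠ ⊤

/-- the package: `x_j = y j 0`, `w_j = y j 1`, `p_j = y j 2`. -/
structure Pkg (n : ℕ) (G : Type) [Group G] (N : ℕ) (t : G) (y : ℤ → Fin 3 → G) (A F : Subgroup G) (Xh Wh : G) (c c' : ℤ) : Prop where
  hn : 2 ≤ n
  ord : Ordb G
  norA : A.Normal
  comA : ∀ a ∈ A, ∀ b ∈ A, a * b = b * a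
  hN : 1 ≤ N
  per : ∀ (j : ℤ) (τ : Fin 3), y (j + N) τ = cj (y j τ) t
  gen : Subgroup.closure ({t} ∪ {g | ∃ (j : ℤ) (τ : Fin 3), g = y j τ}) = ⊤
  P1 : ∀ (j k : ℤ) (τ : Fin 3), j < k → y j τ * cj (y j τ) (y k 0) ∈ A
  P2 : ∀ (j : ℤ) (τ : Fin 3), cj (y j τ * cj (y j τ) (y (j + 1) 0)) (y (j + 1) 1) =
    cj (y j τ * cj (y j τ) (y (j + 1) 0)) (y (j + 1) 0) * (y j τ * cj (y j τ) (y (j + 1) 0)) ^ 2
  ne : y 0 0 ≠ 1
  F1 : y 0 0 * cj (y 0 0) (y 1 0) ∈ F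
  F2 : ∀ a ∈ F, cj a (y 1 1) = cj a (y 1 0) * a ^ 2
  F3 : ∀ a ∈ F, cj a Xh ∈ F ∧ cj a Wh ∈ F
  F4 : ∀ a ∈ F, cj a Xh = cj a (y 1 0 ^ c) ∧ cj a Wh = cj a (y 1 1 ^ c')
  hc : c ≠ 0 ∧ c' ≠ 0
  hX : Xh ∈ derivedSeries G (n - 2) ∧ Wh ∈ derivedSeries G (n - 2)
  sol : derivedSeries G n = ⊥

/-! ## Rows -/

/-- OB1 (short): basic facts for a cone of `G ⧸ N`, in `G`.
(1) `a ∈ P`, `n ∈ N` ⇒ `a * n ∈ P` and `n * a ∈ P` (if `a n ∉ P` then, `a n ∉ N`, so `n⁻¹ a⁻¹ ∈ P`, so `n⁻¹ = n⁻¹ a⁻¹ a ∈ P`, but `P ∩ N = ∅`).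
(2) torsion-free: `a ^ k ∈ N`, `k ≠ 0` ⇒ `a ∈ N`. (3) `a⁻¹ * cj a (g ^ c) ∈ N`, `c ≠ 0` ⇒ `a⁻¹ * cj a g ∈ N` (mod `N`: put `b = cj g a` (`g` conjugated by `a`); if `b > g`
then `b ^ c > g ^ c` for `c > 0`, etc.; `a` commutes with `g ^ c` iff `b ^ c = g ^ c`). (4) `g * cj g x ∈ N` ⇒ `g ∈ N`. -/
def OB1_stmt : Prop := ∀ (G : Type) [Group G] (N : Subgroup G) (P : Set G), N.Normal → QCone N P →
  (∀ a ∈ P, ∀ n ∈ N, a * n ∈ P ∧ n * a ∈ P) ∧
  (∀ (a : G) (k : ℤ), k ≠ 0 → a ^ k ∈ N → a ∈ N) ∧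
  (∀ (a g : G) (c : ℤ), c ≠ 0 → a⁻¹ * cj a (g ^ c) ∈ N → a⁻¹ * cj a g ∈ N) ∧
  (∀ g x : G, g * cj g x ∈ N → g ∈ N)

/-- OUL (medium): the union of a chain. Uses nothing. PROOF: ultrafilter `𝒰` on the index type of the chain containing all the tails `{i | i₀ ≤ i}` (`Ultrafilter.of atTop` for the
directed order, `Filter.atTop` is `NeBot`); `P = {g | g ∉ ⋃ N_i ∧ ∀ᶠ i in 𝒰, g ∈ P_i}`, where `P_i` is a cone for `N_i`. The union of a nonempty chain of subgroups is a subgroup `M` with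
`g ∈ M ↔ ∃ i, g ∈ N_i` (`Subgroup.mem_sSup_of_directedOn`). -/
def OUL_stmt : Prop := ∀ (G : Type) [Group G] (c : Set (Subgroup G)), IsChain (· ≤ ·) c → c.Nonempty → (∀ N ∈ c, OQ N) → OQ (sSup c)

/-- OZO (short): Zorn. Uses OUL (`zorn_le_nonempty₀` or `zorn_subset`). -/
def OZO_stmt : Prop := ∀ (G : Type) [Group G] (x : G), x ≠ 1 → Ordb G → ∃ N : Subgroup G, OQ N ∧ x ∉ N ∧
  ∀ N' : Subgroup G, OQ N' → N ≤ N' → x ∉ N' → N' = N

/-- OR1 (short/medium): relation R2a. Uses OB1.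
PROOF. `x_0 = y 0 0 ∈ N`; by `per` (conjugation by `t`) `y (m N) 0 ∈ N` for all integers `m`. Let `j, τ` be given, `k = m N > j`. P1: `y j τ * cj (y j τ) (y k 0) ∈ A`, and modulo `N` it is
`(y j τ)²`: `(y j τ)^2 = a n` with `a ∈ A`, `n ∈ N`. Hence for `b ∈ A`: `b⁻¹ * cj b ((y j τ)^2) ∈ N`, so by OB1 (3) `b⁻¹ * cj b (y j τ) ∈ N` for all `b ∈ A` and all `j, τ`. Now P2 with `v = y j τ * cj (y j τ) (y (j+1) 0) ∈ A` (P1):
modulo `N`, `v = v * v²`, so `v ^ 2 ∈ N`, `v ∈ N` (OB1 (2)) and `y j τ ∈ N` (OB1 (4)). -/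
def OR1_stmt : Prop := ∀ (n : ℕ) (G : Type) [Group G] (N₀ : ℕ) (t : G) (y : ℤ → Fin 3 → G) (A F : Subgroup G) (Xh Wh : G) (c c' : ℤ),
  Pkg n G N₀ t y A F Xh Wh c c' → ∀ N : Subgroup G, OQ N → y 0 0 ∈ N → ∀ (j : ℤ) (τ : Fin 3), y j τ ∈ N

/-- OR2 (short/medium): relation R2b. Uses OB1.
PROOF. Descending induction on `r ≤ n - 1`: every `a ∈ F` with `a ∈ derivedSeries G r` is in `N`. `r = n - 1`: hypothesis. Step `r + 1 → r` (`r ≤ n - 2`, so `Xh, Wh ∈ derivedSeries G (n-2) ≤ derivedSeries G r`):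
`a⁻¹ * cj a Xh` is a commutator of elements of `derivedSeries G r`, so in `derivedSeries G (r+1)`, and in `F` (F3): it is in `N`. So (F4) `a⁻¹ * cj a (y 1 0 ^ c) ∈ N`, by OB1 (3) `a⁻¹ * cj a (y 1 0) ∈ N`, the same for `y 1 1`. F2: modulo `N`,
`a = a * a^2`, so `a^2 ∈ N`, `a ∈ N`. With `r = 0` and `a = y 0 0 * cj (y 0 0) (y 1 0)` (F1), and OB1 (4): `y 0 0 ∈ N`. -/
def OR2_stmt : Prop := ∀ (n : ℕ) (G : Type) [Group G] (N₀ : ℕ) (t : G) (y : ℤ → Fin 3 → G) (A F : Subgroup G) (Xh Wh : G) (c c' : ℤ),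
  Pkg n G N₀ t y A F Xh Wh c c' → ∀ N : Subgroup G, OQ N → derivedSeries G (n - 1) ≤ N → y 0 0 ∈ N

/-- OMC (medium): the largest proper convex subgroup of a finitely generated ordered group (everything relative to `N`).
PROOF. Work in `G` with `a < b :⇔ a⁻¹ * b ∈ P` (or in `G ⧸ N`). `N ≠ ⊤` and `G` finitely generated: choose finitely many generators `s` closed under inverses; the largest modulo `N`, `g₀ ∈ s`, satisfies `g₀ ∈ P` (some generator is not in `N`) and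
`s⁻¹ * g₀ ∈ P ∪ N` for all generators `s`. `C = {g | ∀ k : ℤ, (g ^ k)⁻¹ * g₀ ∈ P}` (all powers `g ^ k < g₀`). Subgroup: for `g, h ∈ C`, `m` = the larger of `|g|, |h|`, `(g h) ^ k ≤ m ^ (2|k|) < g₀`. Convex, `N ≤ C`, `g₀ ∉ C`. If `D ⊇ N` is convex and
`d ∈ D`, `d ∉ C`, then `d ^ k ≥ g₀` for some `k`, so `g₀ ∈ D` and all generators and their inverses are in `D`, so `D = ⊤`. Normality: the conjugate of `C` is convex and `≠ ⊤`, so `≤ C`. -/
def OMC_stmt : Prop := ∀ (G : Type) [Group G] (N : Subgroup G) (P : Set G), N.Normal → QCone N P → Group.FG G → N ≠ ⊤ →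
  ∃ C : Subgroup G, N ≤ C ∧ C.Normal ∧ C ≠ ⊤ ∧ Cvx P C ∧ ∀ D : Subgroup G, N ≤ D → Cvx P D → D ≠ ⊤ → D ≤ C

/-- OCE (medium): if there is no convex subgroup between `N` and `G` then `A` is central modulo `N`.
PROOF. Suppose `γ = a⁻¹ * cj a g ∉ N`, `a ∈ A`. Replace `g` by `g⁻¹` if necessary: `g ∈ P` (if `g ∈ N` then `γ ∈ N`; `a⁻¹ * cj a g⁻¹ ∉ N` too), and `a` by `a⁻¹`: `γ ∈ P` (`γ ∈ A` and `A` is commutative: `a * (cj a g)⁻¹ = γ⁻¹`).
`A` commutative gives `cj (a^k) g = a^k γ^k` for natural `k`, i.e. `γ^k = (a^{-k} g⁻¹ a^k) g`, where `a^{-k} g⁻¹ a^k` is negative: so `γ^k < g`, i.e. `(γ^k)⁻¹ * g ∈ P`, for all `k : ℕ`, and so for all `k : ℤ`. The set of all `h` with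
`|h| ≤ γ^k` for some `k` (that is: `∃ k : ℕ, h⁻¹ γ^k ∈ P ∧ h γ^k ∈ P`) is a convex subgroup containing `N` and `γ`, not containing `g`: contradiction. -/
def OCE_stmt : Prop := ∀ (G : Type) [Group G] (N : Subgroup G) (P : Set G) (A : Subgroup G), N.Normal → QCone N P →
  (∀ D : Subgroup G, N ≤ D → Cvx P D → D = ⊤ ∨ D = N) → A.Normal → (∀ a ∈ A, ∀ b ∈ A, a * b = b * a) →
  ∀ a ∈ A, ∀ g : G, a⁻¹ * cj a g ∈ N

/-- OCV (medium): conversions between cones in `G` and orders on `G ⧸ N`.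
(1) `OQ N` and `N ≤ K` normal and `OQ K`... for `Q = G ⧸ N`: `Q` is orderable. (2) if `N ≤ C`, `C` normal, `Cvx P C` for a cone `P` of `G ⧸ N`, then the image of `C` in `G ⧸ N` is relatively convex. (3) if `K` is a normal relatively convex subgroup of
`G ⧸ N` then its preimage is `OQ` (positive elements: the preimages of the elements of `G ⧸ N` which are `> 1` and not in `K`; they are a cone: if `a, b > 1` are not in `K` then `ab ≥ a > 1` is not in `K` by convexity). -/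
def OCV_stmt : Prop := ∀ (G : Type) [Group G] (N : Subgroup G) [N.Normal],
  (OQ N → Orderable (G ⧸ N)) ∧
  (∀ (P : Set G) (C : Subgroup G), QCone N P → N ≤ C → Cvx P C → RelConvex (C.map (QuotientGroup.mk' N))) ∧
  (∀ K : Subgroup (G ⧸ N), K.Normal → RelConvex K → OQ (K.comap (QuotientGroup.mk' N)))

/-- OFG (short): `G` is finitely generated: by `t` and the `y j τ`, `0 ≤ j < N` (`per` in both directions). -/
def OFG_stmt : Prop := ∀ (n : ℕ) (G : Type) [Group G] (N₀ : ℕ) (t : G) (y : ℤ → Fin 3 → G) (A F : Subgroup G) (Xh Wh : G) (c c' : ℤ),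
  Pkg n G N₀ t y A F Xh Wh c c' → Group.FG G

/-- OUN (medium): uniqueness. Uses OB1, OR1, OZO.
PROOF. `Y` = the subgroup generated by all `y j τ` is normal (`per` in both directions, `gen`), every element of `G` is `t ^ m * y` with `y ∈ Y`. Let `K` be normal with `OQ K` and `y 0 0 ∈ K`, `K ≠ ⊤`. OR1: `Y ≤ K`. If `k = t ^ m * y ∈ K` then `t ^ m ∈ K`; if `m ≠ 0` then `t ∈ K` (OB1 (2)) and `K = ⊤`, contradiction; so `m = 0` and `k ∈ Y`. So `K = Y`. -/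
def OUN_stmt : Prop := ∀ (n : ℕ) (G : Type) [Group G] (N₀ : ℕ) (t : G) (y : ℤ → Fin 3 → G) (A F : Subgroup G) (Xh Wh : G) (c c' : ℤ),
  Pkg n G N₀ t y A F Xh Wh c c' → ∀ K K' : Subgroup G, OQ K → OQ K' → y 0 0 ∈ K → y 0 0 ∈ K' → K ≠ ⊤ → K' ≠ ⊤ → K = K'

/-- OAS (medium): the abstract theorem. Uses OB1, OZO, OR1, OR2, OMC, OCE, OCV, OFG, OUN.
PROOF. `N` from OZO with `x = y 0 0`. The group is `G ⧸ N`: finitely generated, orderable (OCV (1)), `derivedSeries (G ⧸ N) n = ⊥` (`map_derivedSeries_eq` for `mk' N`), `derivedSeries (G ⧸ N) (n-1) ≠ ⊥` (else `derivedSeries G (n-1) ≤ N`, OR2 gives `y 0 0 ∈ N`). Existence: `P` a cone for `N`, `C` from OMC.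
If `C = N` then there is no convex subgroup between, OCE: `A` is central modulo `N`, P2 with `j = 0`, `τ = 0` gives `v = v * v²` modulo `N`, `v ∈ N` and `y 0 0 ∈ N` (OB1): contradiction. So `C ≠ N` and the image of `C` is as required (OCV (2)). Uniqueness: if `K₁, K₂` are two such subgroups, their preimages
`K₁', K₂'` are `OQ` (OCV (3)), `≥ N`, `≠ N`, so contain `y 0 0` (OZO), `≠ ⊤`: equal by OUN, and `K₁ = K₂` (`mk' N` is surjective). -/
def OAS_stmt : Prop := ∀ (n : ℕ) (G : Type) [Group G] (N₀ : ℕ) (t : G) (y : ℤ → Fin 3 → G) (A F : Subgroup G) (Xh Wh : G) (c c' : ℤ),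
  Pkg n G N₀ t y A F Xh Wh c c' → Target n

end OC
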